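import Pool.Agent.N718.DC.Stm

set_option autoImplicit false

/-!
# DC/D2: the second moment of the deviation
-/

namespace Pool.Agent.N362.DC

open Finset
open Pool.Agent.N718.DC

theorem rt_ge {M : ℕ} (hM : 1 ≤ M) : 1 ≤ rt M := by
  unfold rt
  have h1 : 0 < Nat.totient M := Nat.totient_pos.2 hM
  have h1' : (0 : ℝ) < Nat.totient M := by exact_mod_cast h1
  rw [one_le_div h1']
  exact_mod_cast Nat.totient_le M

theorem card_bx {H : ℕ} {u v : ℤ × ℤ} (h : inbox H u v) : ((bx u v).card : ℝ) = ar u v := by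
  obtain ⟨-, h1, -, -, h2, -⟩ := h
  unfold bx ar
  rw [card_product, Int.card_Icc, Int.card_Icc]
  have e : ∀ a b : ℤ, a ≤ b + 1 → (((b + 1 - a).toNat : ℕ) : ℝ) = (b : ℝ) - a + 1 := by
    intro a b hab
    have h3 : (((b + 1 - a).toNat : ℕ) : ℤ) = b + 1 - a := Int.toNat_of_nonneg (by omega)
    have h4 : ((((b + 1 - a).toNat : ℕ) : ℤ) : ℝ) = ((b + 1 - a : ℤ) : ℝ) := by rw [h3]
    push_cast at h4
    rw [h4]
    ring
  push_cast
  rw [e _ _ h1, e _ _ h2]

theorem V_nonneg (M n : ℕ) : 0 ≤ V M n := by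
  unfold V
  have h1 : 1 ≤ ∏ p ∈ n.primeFactors.filter (fun p => ¬ p ∣ M), ((p : ℝ) / ((p : ℝ) - 1)) ^ 2 := by
    refine Finset.prod_induction _ (fun x => (1 : ℝ) ≤ x)
      (fun a b ha hb => one_le_mul_of_one_le_of_one_le ha hb) le_rfl fun p hp => ?_
    have hp' : p.Prime := Nat.prime_of_mem_primeFactors (mem_filter.1 hp).1
    have h2 : (2 : ℝ) ≤ p := by exact_mod_cast hp'.two_le
    refine one_le_pow₀ ?_
    rw [one_le_div (by linarith)]
    linarith
  have h2 : 0 ≤ ∑ p ∈ n.primeFactors.filter (fun p => ¬ p ∣ M), 2 / (p : ℝ) :=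
    Finset.sum_nonneg fun p _ => by positivity
  linarith

theorem lam_nonneg (n : ℤ) : 0 ≤ lam n := by
  unfold lam
  split_ifs with h
  · refine Real.log_nonneg ?_
    have : (1 : ℤ) ≤ n := h.1
    exact_mod_cast this
  · exact le_rfl

theorem lam_le {n : ℤ} {X : ℝ} (hX : 1 ≤ X) (h : |(n : ℝ)| ≤ X) : lam n ≤ Real.log X := by
  unfold lam
  split_ifs with h1
  · refine Real.log_le_log (by exact_mod_cast h1.1) ((le_abs_self _).trans h)
  · exact Real.log_nonneg hX

theorem pos_nonneg (n : ℤ) : 0 ≤ pos n := by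
  unfold pos
  split_ifs <;> norm_num

theorem pos_le (n : ℤ) : pos n ≤ 1 := by
  unfold pos
  split_ifs <;> norm_num

section

variable {m κ W H : ℕ} (D : Data m) (hD : D.Ok κ W H) (hl : 1 ≤ Real.log H)

theorem mem_ts {t : ℕ} : t ∈ D.ts ↔ t < D.T ∧ ¬ (D.q' : ℤ) ∣ D.y t := by
  unfold Data.ts
  rw [mem_filter, mem_range]

include hD

theorem hyp_of (i : Fin m) {t t' : ℕ} (ht : t ∈ D.ts) (ht' : t' ∈ D.ts) (hne : t ≠ t') :
    Hyp κ H (D.s i) (D.L i) D.q (D.y t) (D.y t') (D.r i t) (D.r i t') := by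
  have h1 := (mem_ts D).1 ht
  have h2 := (mem_ts D).1 ht'
  have hg1 : 1 ≤ D.g := Nat.pos_of_dvd_of_pos hD.hg hD.hM
  have gy : ∀ t ∈ D.ts, ∀ p : ℕ, p.Prime → p ∣ D.q → (p : ℤ) ∣ D.y t → p ∣ D.L i := by
    intro t ht p hp hpq hpy
    unfold Data.q at hpq
    rcases (Nat.Prime.dvd_mul hp).1 hpq with h | h
    · exact hD.hLM i p hp (h.trans hD.hg)
    · have : p = D.q' := (Nat.prime_dvd_prime_iff_eq hp hD.hq').1 h
      rw [this] at hpy
      exact absurd hpy ((mem_ts D).1 ht).2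
  exact
    { hs := hD.hs i
      hL := hD.hL i
      hL' := hD.hL' i
      hq := Nat.mul_pos hg1 hD.hq'.pos
      hq' := hD.hq
      hy := hD.hy t h1.1
      hy' := hD.hy t' h2.1
      hr := hD.hr i t h1.1
      hr' := hD.hr i t' h2.1
      ne := by
        unfold Data.y
        intro h
        have hM : (D.M : ℤ) ≠ 0 := by
          have := hD.hM
          omega
        have h3 : (D.M : ℤ) * t = D.M * t' := by linarith
        have h4 := mul_left_cancel₀ hM h3
        exact hne (by exact_mod_cast h4)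
      co := hD.co i t ht
      co' := hD.co i t' ht'
      gy := gy t ht
      gy' := gy t' ht' }

include hl

theorem ar_ge (i : Fin m) : ((H : ℝ) / Real.log H) ^ 2 ≤ ar (D.u i) (D.v i) := by
  have h := hD.hu i
  unfold ar
  rw [pow_two]
  have h0 : 0 ≤ (H : ℝ) / Real.log H := by positivity
  refine mul_le_mul (by linarith [h.1]) (by linarith [h.2]) h0 (by linarith [h.1])

theorem ar_pos (i : Fin m) : 0 < ar (D.u i) (D.v i) := by
  have hH : (0 : ℝ) < H := by
    by_contra hcon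
    have h1 : (H : ℝ) = 0 := le_antisymm (not_lt.1 hcon) (Nat.cast_nonneg H)
    rw [h1, Real.log_zero] at hl
    linarith
  have := ar_ge D hD hl i
  have h2 : 0 < ((H : ℝ) / Real.log H) ^ 2 := by positivity
  linarith

theorem vol_pos : 0 < D.vol := Finset.prod_pos fun i _ => ar_pos D hD hl i

/-- the four sums -/
theorem loc_of
    (hloc : ∀ (s : ℤ) (L q : ℕ) (y y' r r' : ℤ), Hyp κ H s L q y y' r r' → ∀ u v : ℤ × ℤ,
      inbox H u v →
      ∀ M : ℕ, 1 ≤ M → (M : ℝ) ≤ Real.log H ^ κ → (∀ p : ℕ, p.Prime → p ∣ M → p ∣ L) →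
        (∀ p : ℕ, p.Prime → p ∣ L → p ∣ M ∨ p ∣ q) →
      |∑ b ∈ bx u v, lam (G s L q y r b) * lam (G s L q y' r' b) -
        rt M ^ 2 * ∑ b ∈ bx u v, pos (G s L q y r b) * pos (G s L q y' r' b)| ≤
          rt M ^ 2 * V M (q * (y - y').natAbs) * ar u v + (H : ℝ) ^ 2 / Real.log H ^ 3 ∧
      |∑ b ∈ bx u v, lam (G s L q y r b) * pos (G s L q y' r' b) -
        rt M * ∑ b ∈ bx u v, pos (G s L q y r b) * pos (G s L q y' r' b)| ≤
          rt M * V M (q * (y - y').natAbs) * ar u v + (H : ℝ) ^ 2 / Real.log H ^ 3)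
    (i : Fin m) {t t' : ℕ} (ht : t ∈ D.ts) (ht' : t' ∈ D.ts) (hne : t ≠ t') :
    |(∑ b ∈ bx (D.u i) (D.v i), lam (D.val i t b) * lam (D.val i t' b)) / ar (D.u i) (D.v i) -
        rt D.M ^ 2 * ((∑ b ∈ bx (D.u i) (D.v i), pos (D.val i t b) * pos (D.val i t' b)) /
          ar (D.u i) (D.v i))| ≤
      rt D.M ^ 2 * (V D.M (D.q * (D.y t - D.y t').natAbs) + 1 / Real.log H) ∧
    |(∑ b ∈ bx (D.u i) (D.v i), lam (D.val i t b) * pos (D.val i t' b)) / ar (D.u i) (D.v i) -
        rt D.M * ((∑ b ∈ bx (D.u i) (D.v i), pos (D.val i t b) * pos (D.val i t' b)) /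
          ar (D.u i) (D.v i))| ≤
      rt D.M * (V D.M (D.q * (D.y t - D.y t').natAbs) + 1 / Real.log H) := by
  have hw := rt_ge hD.hM
  have ha := ar_pos D hD hl i
  have hge := ar_ge D hD hl i
  obtain ⟨h1, h2⟩ := hloc _ _ _ _ _ _ _ (hyp_of D hD i ht ht' hne) (D.u i) (D.v i) (hD.hbox i)
    D.M hD.hM hD.hM' (hD.hLM i) (hD.hLq i)
  have hl0 : 0 < Real.log H := by linarith
  have herr : (H : ℝ) ^ 2 / Real.log H ^ 3 ≤ 1 / Real.log H * ar (D.u i) (D.v i) := by
    calc (H : ℝ) ^ 2 / Real.log H ^ 3 = 1 / Real.log H * ((H : ℝ) / Real.log H) ^ 2 := by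
          field_simp
      _ ≤ 1 / Real.log H * ar (D.u i) (D.v i) := by gcongr
  have hη : 0 ≤ 1 / Real.log H := by positivity
  constructor
  · rw [mul_div_assoc', ← sub_div, abs_div, abs_of_pos ha, div_le_iff₀ ha]
    refine h1.trans ?_
    have h3 : 1 / Real.log H * ar (D.u i) (D.v i) ≤
        rt D.M ^ 2 * (1 / Real.log H * ar (D.u i) (D.v i)) :=
      le_mul_of_one_le_left (by positivity) (one_le_pow₀ hw)
    calc _ ≤ rt D.M ^ 2 * V D.M (D.q * (D.y t - D.y t').natAbs) * ar (D.u i) (D.v i) +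
          rt D.M ^ 2 * (1 / Real.log H * ar (D.u i) (D.v i)) := by gcongr; exact herr.trans h3
      _ = _ := by ring
  · rw [mul_div_assoc', ← sub_div, abs_div, abs_of_pos ha, div_le_iff₀ ha]
    refine h2.trans ?_
    have h3 : 1 / Real.log H * ar (D.u i) (D.v i) ≤
        rt D.M * (1 / Real.log H * ar (D.u i) (D.v i)) :=
      le_mul_of_one_le_left (by positivity) hw
    calc _ ≤ rt D.M * V D.M (D.q * (D.y t - D.y t').natAbs) * ar (D.u i) (D.v i) +
          rt D.M * (1 / Real.log H * ar (D.u i) (D.v i)) := by gcongr; exact herr.trans h3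
      _ = _ := by ring

omit hD hl in
theorem sum_box (F : Fin m → ℤ × ℤ → ℝ) :
    ∑ b ∈ D.box, ∏ i, F i (b i) = ∏ i, ∑ x ∈ bx (D.u i) (D.v i), F i x := by
  unfold Data.box
  rw [Finset.prod_univ_sum]

theorem prod_vol (F : Fin m → ℝ) : ∏ i, F i = (∏ i, F i / ar (D.u i) (D.v i)) * D.vol := by
  unfold Data.vol
  rw [← Finset.prod_mul_distrib]
  refine Finset.prod_congr rfl fun i _ => ?_
  rw [div_mul_cancel₀ _ (ar_pos D hD hl i).ne']

omit hl in
theorem card_box : (D.box.card : ℝ) = D.vol := by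
  unfold Data.box Data.vol
  rw [Fintype.card_piFinset]
  push_cast
  exact Finset.prod_congr rfl fun i _ => card_bx (hD.hbox i)

/-- the off-diagonal terms -/
theorem pair_le
    (hloc : ∀ (s : ℤ) (L q : ℕ) (y y' r r' : ℤ), Hyp κ H s L q y y' r r' → ∀ u v : ℤ × ℤ,
      inbox H u v →
      ∀ M : ℕ, 1 ≤ M → (M : ℝ) ≤ Real.log H ^ κ → (∀ p : ℕ, p.Prime → p ∣ M → p ∣ L) →
        (∀ p : ℕ, p.Prime → p ∣ L → p ∣ M ∨ p ∣ q) →
      |∑ b ∈ bx u v, lam (G s L q y r b) * lam (G s L q y' r' b) -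
        rt M ^ 2 * ∑ b ∈ bx u v, pos (G s L q y r b) * pos (G s L q y' r' b)| ≤
          rt M ^ 2 * V M (q * (y - y').natAbs) * ar u v + (H : ℝ) ^ 2 / Real.log H ^ 3 ∧
      |∑ b ∈ bx u v, lam (G s L q y r b) * pos (G s L q y' r' b) -
        rt M * ∑ b ∈ bx u v, pos (G s L q y r b) * pos (G s L q y' r' b)| ≤
          rt M * V M (q * (y - y').natAbs) * ar u v + (H : ℝ) ^ 2 / Real.log H ^ 3)
    (hcomb : S_COMB) {t t' : ℕ} (ht : t ∈ D.ts) (ht' : t' ∈ D.ts) (hne : t ≠ t') :
    ∑ b ∈ D.box, (D.f t b - rt D.M ^ m * D.one t b) * (D.f t' b - rt D.M ^ m * D.one t' b) ≤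
      3 * rt D.M ^ (2 * m) *
        ((1 + (V D.M (D.q * (D.y t - D.y t').natAbs) + 1 / Real.log H)) ^ m - 1) * D.vol := by
  have hv := vol_pos D hD hl
  set w := rt D.M with hw
  set κ' := V D.M (D.q * (D.y t - D.y t').natAbs) + 1 / Real.log H with hκ'
  have hκ0 : 0 ≤ κ' := by
    have := V_nonneg D.M (D.q * (D.y t - D.y t').natAbs)
    have : 0 ≤ 1 / Real.log H := by positivity
    linarith
  have e1 : ∑ b ∈ D.box, (D.f t b - w ^ m * D.one t b) * (D.f t' b - w ^ m * D.one t' b) =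
      ∏ i, (∑ x ∈ bx (D.u i) (D.v i), lam (D.val i t x) * lam (D.val i t' x)) -
      w ^ m * ∏ i, (∑ x ∈ bx (D.u i) (D.v i), lam (D.val i t x) * pos (D.val i t' x)) -
      w ^ m * ∏ i, (∑ x ∈ bx (D.u i) (D.v i), lam (D.val i t' x) * pos (D.val i t x)) +
      w ^ (2 * m) * ∏ i, (∑ x ∈ bx (D.u i) (D.v i), pos (D.val i t x) * pos (D.val i t' x)) := by
    rw [← sum_box D (fun i x => lam (D.val i t x) * lam (D.val i t' x)),
      ← sum_box D (fun i x => lam (D.val i t x) * pos (D.val i t' x)),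
      ← sum_box D (fun i x => lam (D.val i t' x) * pos (D.val i t x)),
      ← sum_box D (fun i x => pos (D.val i t x) * pos (D.val i t' x)),
      Finset.mul_sum, Finset.mul_sum, Finset.mul_sum, ← Finset.sum_sub_distrib,
      ← Finset.sum_sub_distrib, ← Finset.sum_add_distrib]
    refine Finset.sum_congr rfl fun b _ => ?_
    simp only [Finset.prod_mul_distrib]
    unfold Data.f Data.one
    rw [two_mul, pow_add]
    ring
  rw [e1, prod_vol D hD hl (fun i => ∑ x ∈ bx (D.u i) (D.v i), lam (D.val i t x) * lam (D.val i t' x)),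
    prod_vol D hD hl (fun i => ∑ x ∈ bx (D.u i) (D.v i), lam (D.val i t x) * pos (D.val i t' x)),
    prod_vol D hD hl (fun i => ∑ x ∈ bx (D.u i) (D.v i), lam (D.val i t' x) * pos (D.val i t x)),
    prod_vol D hD hl (fun i => ∑ x ∈ bx (D.u i) (D.v i), pos (D.val i t x) * pos (D.val i t' x))]
  have key := hcomb m
    (fun i => (∑ x ∈ bx (D.u i) (D.v i), lam (D.val i t x) * lam (D.val i t' x)) /
      ar (D.u i) (D.v i))
    (fun i => (∑ x ∈ bx (D.u i) (D.v i), lam (D.val i t x) * pos (D.val i t' x)) /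
      ar (D.u i) (D.v i))
    (fun i => (∑ x ∈ bx (D.u i) (D.v i), lam (D.val i t' x) * pos (D.val i t x)) /
      ar (D.u i) (D.v i))
    (fun i => (∑ x ∈ bx (D.u i) (D.v i), pos (D.val i t x) * pos (D.val i t' x)) /
      ar (D.u i) (D.v i)) w κ' (rt_ge hD.hM) hκ0
    (by
      intro i
      have ha := ar_pos D hD hl i
      refine ⟨div_nonneg (Finset.sum_nonneg fun x _ => mul_nonneg (pos_nonneg _) (pos_nonneg _))
        ha.le, ?_⟩
      rw [div_le_one ha, ← card_bx (hD.hbox i)]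
      calc ∑ x ∈ bx (D.u i) (D.v i), pos (D.val i t x) * pos (D.val i t' x) ≤
          ∑ _x ∈ bx (D.u i) (D.v i), (1 : ℝ) := by
            refine Finset.sum_le_sum fun x _ => ?_
            exact mul_le_one₀ (pos_le _) (pos_nonneg _) (pos_le _)
        _ = ((bx (D.u i) (D.v i)).card : ℝ) := by simp)
    (fun i => (loc_of D hD hl hloc i ht ht' hne).1)
    (fun i => (loc_of D hD hl hloc i ht ht' hne).2)
    (by
      intro i
      have h := (loc_of D hD hl hloc i ht' ht hne.symm).2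
      have e2 : (D.y t' - D.y t).natAbs = (D.y t - D.y t').natAbs := by
        rw [← Int.natAbs_neg, neg_sub]
      rw [e2] at h
      have e3 : ∑ x ∈ bx (D.u i) (D.v i), pos (D.val i t x) * pos (D.val i t' x) =
          ∑ x ∈ bx (D.u i) (D.v i), pos (D.val i t' x) * pos (D.val i t x) :=
        Finset.sum_congr rfl fun x _ => mul_comm _ _
      simp only [e3]
      exact h)
  have key2 := (abs_le.1 key).2
  calc _ = (∏ i, (∑ x ∈ bx (D.u i) (D.v i), lam (D.val i t x) * lam (D.val i t' x)) /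
        ar (D.u i) (D.v i) -
      w ^ m * ∏ i, (∑ x ∈ bx (D.u i) (D.v i), lam (D.val i t x) * pos (D.val i t' x)) /
        ar (D.u i) (D.v i) -
      w ^ m * ∏ i, (∑ x ∈ bx (D.u i) (D.v i), lam (D.val i t' x) * pos (D.val i t x)) /
        ar (D.u i) (D.v i) +
      w ^ (2 * m) * ∏ i, (∑ x ∈ bx (D.u i) (D.v i), pos (D.val i t x) * pos (D.val i t' x)) /
        ar (D.u i) (D.v i)) * D.vol := by ring
    _ ≤ (3 * w ^ (2 * m) * ((1 + κ') ^ m - 1)) * D.vol := by gcongr

/-- the diagonal terms -/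
theorem diag_le (hH : 3 * Real.log H ^ (2 * κ) ≤ H) {t : ℕ} (ht : t ∈ D.ts) :
    ∑ b ∈ D.box, (D.f t b - rt D.M ^ m * D.one t b) * (D.f t b - rt D.M ^ m * D.one t b) ≤
      ((2 * Real.log H) ^ (2 * m) + rt D.M ^ (2 * m)) * D.vol := by
  have hv := vol_pos D hD hl
  have hw := rt_ge hD.hM
  have hH1 : (1 : ℝ) ≤ H := by
    have : 1 ≤ Real.log H ^ (2 * κ) := one_le_pow₀ hl
    linarith
  have htT := ((mem_ts D).1 ht).1
  have hlam : ∀ b ∈ D.box, ∀ i, lam (D.val i t (b i)) ≤ 2 * Real.log H := by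
    intro b hb i
    have hbi : b i ∈ bx (D.u i) (D.v i) := (Fintype.mem_piFinset.1 hb) i
    obtain ⟨g1, -, g2, g3, -, g4⟩ := hD.hbox i
    unfold bx at hbi
    rw [mem_product, mem_Icc, mem_Icc] at hbi
    obtain ⟨⟨k1, k2⟩, k3, k4⟩ := hbi
    have hb1 : |((b i).1 : ℝ)| ≤ H := by
      rw [abs_le]
      constructor
      · have : -(H : ℤ) ≤ (b i).1 := g1.trans k1
        exact_mod_cast this
      · have : (b i).1 ≤ (H : ℤ) := k2.trans g2
        exact_mod_cast this
    have hb2 : |((b i).2 : ℝ)| ≤ H := by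
      rw [abs_le]
      constructor
      · have : -(H : ℤ) ≤ (b i).2 := g3.trans k3
        exact_mod_cast this
      · have : (b i).2 ≤ (H : ℤ) := k4.trans g4
        exact_mod_cast this
    have hlog2 : Real.log ((H : ℝ) ^ 2) = 2 * Real.log H := by
      rw [Real.log_pow]
      norm_num
    rw [← hlog2]
    refine lam_le (one_le_pow₀ hH1) ?_
    unfold Data.val G
    push_cast
    have hs : |(D.s i : ℝ)| = 1 := by
      rcases hD.hs i with h | h <;> rw [h] <;> simp
    rw [abs_mul, hs, one_mul]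
    set ℓ := Real.log H ^ κ with hℓ
    have hℓ1 : 1 ≤ ℓ := one_le_pow₀ hl
    have hL := hD.hL' i
    have hq := hD.hq
    have hy := hD.hy t htT
    have hr := hD.hr i t htT
    have hℓ2 : Real.log H ^ (2 * κ) = ℓ * ℓ := by
      rw [two_mul, pow_add]
    rw [hℓ2] at hH
    have j1 : |(D.q : ℝ) * (b i).1| ≤ ℓ * H := by
      rw [abs_mul, Nat.abs_cast]
      gcongr
    have j2 : |(D.y t : ℝ) * (b i).2| ≤ ℓ * H := by
      rw [abs_mul]
      gcongr
    have j3 : |(D.q : ℝ) * (b i).1 + (D.y t : ℝ) * (b i).2| ≤ 2 * (ℓ * H) := by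
      refine (abs_add_le _ _).trans ?_
      linarith
    have j4 : |(D.L i : ℝ) * ((D.q : ℝ) * (b i).1 + (D.y t : ℝ) * (b i).2)| ≤ ℓ * (2 * (ℓ * H)) := by
      rw [abs_mul, Nat.abs_cast]
      gcongr
    refine (abs_add_le _ _).trans ?_
    have j5 : (H : ℝ) * ℓ ≤ ℓ * ℓ * H := by
      have k : 0 ≤ (ℓ - 1) * (ℓ * H) := mul_nonneg (by linarith) (by positivity)
      linarith
    calc |(D.L i : ℝ) * ((D.q : ℝ) * (b i).1 + (D.y t : ℝ) * (b i).2)| + |(D.r i t : ℝ)| ≤
        ℓ * (2 * (ℓ * H)) + H * ℓ := add_le_add j4 hr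
      _ ≤ 3 * (ℓ * ℓ) * H := by linarith
      _ ≤ H * H := by gcongr
      _ = (H : ℝ) ^ 2 := by ring
  have hf0 : ∀ b, 0 ≤ D.f t b := fun b => Finset.prod_nonneg fun i _ => lam_nonneg _
  have ho0 : ∀ b, 0 ≤ D.one t b := fun b => Finset.prod_nonneg fun i _ => pos_nonneg _
  have ho1 : ∀ b, D.one t b ≤ 1 := fun b =>
    Finset.prod_le_one (fun i _ => pos_nonneg _) fun i _ => pos_le _
  have hf1 : ∀ b ∈ D.box, D.f t b ≤ (2 * Real.log H) ^ m := by
    intro b hb
    calc D.f t b ≤ ∏ _i : Fin m, (2 * Real.log H) :=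
          Finset.prod_le_prod (fun i _ => lam_nonneg _) fun i _ => hlam b hb i
      _ = (2 * Real.log H) ^ m := by simp
  calc ∑ b ∈ D.box, (D.f t b - rt D.M ^ m * D.one t b) * (D.f t b - rt D.M ^ m * D.one t b) ≤
      ∑ _b ∈ D.box, ((2 * Real.log H) ^ (2 * m) + rt D.M ^ (2 * m)) := by
        refine Finset.sum_le_sum fun b hb => ?_
        have a1 := hf0 b
        have a2 := hf1 b hb
        have a3 := ho0 b
        have a4 := ho1 b
        have a5 : 0 ≤ rt D.M ^ m := by positivity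
        have a6 : D.f t b * D.f t b ≤ (2 * Real.log H) ^ (2 * m) := by
          rw [two_mul m, pow_add]
          exact mul_le_mul a2 a2 a1 (a1.trans a2)
        have a7 : rt D.M ^ m * D.one t b ≤ rt D.M ^ m := mul_le_of_le_one_right a5 a4
        have a8 : (rt D.M ^ m * D.one t b) * (rt D.M ^ m * D.one t b) ≤ rt D.M ^ (2 * m) := by
          rw [two_mul m, pow_add]
          exact mul_le_mul a7 a7 (by positivity) a5
        have a9 : 0 ≤ D.f t b * (rt D.M ^ m * D.one t b) := by positivity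
        nlinarith
    _ = ((2 * Real.log H) ^ (2 * m) + rt D.M ^ (2 * m)) * D.vol := by
        rw [Finset.sum_const, nsmul_eq_mul, card_box D hD]
        ring

end

theorem ev_log (M : ℝ) : ∀ᶠ B : ℕ in Filter.atTop, M ≤ Real.log B :=
  (Real.tendsto_log_atTop.comp tendsto_natCast_atTop_atTop).eventually_ge_atTop M

/-- powers of logarithms are small -/
theorem ev_pow (M : ℝ) (n : ℕ) : ∀ᶠ B : ℕ in Filter.atTop, M * Real.log B ^ n ≤ B := by
  have h1 : (fun x : ℝ => Real.log x ^ n) =o[Filter.atTop] (id : ℝ → ℝ) :=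
    Real.isLittleO_pow_log_id_atTop
  have hc : 0 < 1 / (|M| + 1) := by positivity
  have h2 := (h1.comp_tendsto tendsto_natCast_atTop_atTop).def hc
  filter_upwards [h2, Filter.eventually_ge_atTop 1] with B hB hB1
  simp only [Function.comp_apply, id_eq, Real.norm_eq_abs, Nat.abs_cast] at hB
  have hB' : (1 : ℝ) ≤ B := by exact_mod_cast hB1
  have h3 : 0 ≤ Real.log B ^ n := pow_nonneg (Real.log_nonneg hB') n
  rw [abs_of_nonneg h3, one_div, inv_mul_eq_div, le_div_iff₀ (by positivity)] at hB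
  have h4 := le_abs_self M
  nlinarith

/-- **D2** -/
theorem d2_ (h1 : S_LOC) (h2 : S_VSUM) (h3 : S_COMB) : S_D2 := by
  intro m
  obtain ⟨C₁, hC₁, hV⟩ := h2 m
  refine ⟨3 * (2 * C₁ + 1) + 1, by positivity, fun κ W => ?_⟩
  obtain ⟨H₁, hH₁⟩ := h1 κ 3
  rcases Nat.eq_zero_or_pos W with hW0 | hW0
  · refine ⟨0, fun H _ D hD => ?_⟩
    have := hD.hW
    omega
  have hWr : (1 : ℝ) ≤ W := by exact_mod_cast hW0
  -- a small number
  have hcont : Filter.Tendsto (fun x : ℝ => (1 + 1 / x) ^ m) Filter.atTop (nhds 1) := by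
    have h4 : Filter.Tendsto (fun x : ℝ => 1 / x) Filter.atTop (nhds 0) := by
      simpa using tendsto_inv_atTop_zero (𝕜 := ℝ)
    have h5 := (h4.const_add 1).pow m
    simpa using h5
  have hsmall : ∀ᶠ B : ℕ in Filter.atTop, (1 + 1 / Real.log B) ^ m < 1 + 1 / W := by
    have h5 : ∀ᶠ x : ℝ in Filter.atTop, (1 + 1 / x) ^ m < 1 + 1 / W :=
      hcont.eventually (gt_mem_nhds (by
        have : (0 : ℝ) < 1 / W := by positivity
        linarith))
    exact (Real.tendsto_log_atTop.comp tendsto_natCast_atTop_atTop).eventually h5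
  have hev : ∀ᶠ H : ℕ in Filter.atTop, ∀ D : Data m, D.Ok κ W H →
      ∑ b ∈ D.box, (∑ t ∈ D.ts, (D.f t b - rt D.M ^ m * D.one t b)) ^ 2 ≤
        (3 * (2 * C₁ + 1) + 1) / W * rt D.M ^ (2 * m) * D.T ^ 2 * D.vol := by
    filter_upwards [hsmall, ev_log 1, ev_log ((2 ^ (2 * m) + 1) * W), ev_pow 3 (2 * κ),
      Filter.eventually_ge_atTop H₁] with H g1 g2 g3 g4 g5
    intro D hD
    have hv := vol_pos D hD g2
    have hw := rt_ge hD.hM
    have hloc := hH₁ H g5
    have hl0 : 0 < Real.log H := by linarith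
    -- expand the square
    have e1 : ∑ b ∈ D.box, (∑ t ∈ D.ts, (D.f t b - rt D.M ^ m * D.one t b)) ^ 2 =
        ∑ x ∈ D.ts ×ˢ D.ts, ∑ b ∈ D.box, (D.f x.1 b - rt D.M ^ m * D.one x.1 b) *
          (D.f x.2 b - rt D.M ^ m * D.one x.2 b) := by
      rw [Finset.sum_comm]
      refine Finset.sum_congr rfl fun b _ => ?_
      rw [pow_two, Finset.sum_mul_sum, Finset.sum_product]
    have hη : (1 + 1 / Real.log H) ^ m ≤ 1 + 1 / W := g1.le
    have hη2 : (1 : ℝ) + 1 / W ≤ 2 := by
      have : (1 : ℝ) / W ≤ 1 := by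
        rw [div_le_one (by linarith)]
        exact hWr
      linarith
    have hTT : (D.ts.card : ℝ) ≤ D.T := by
      have : D.ts.card ≤ D.T := by
        unfold Data.ts
        exact (card_filter_le _ _).trans (by simp)
      exact_mod_cast this
    -- off the diagonal
    have off : ∑ x ∈ (D.ts ×ˢ D.ts).filter (fun x => x.1 ≠ x.2), ∑ b ∈ D.box,
        (D.f x.1 b - rt D.M ^ m * D.one x.1 b) * (D.f x.2 b - rt D.M ^ m * D.one x.2 b) ≤
        3 * rt D.M ^ (2 * m) * D.vol * ((2 * C₁ + 1) * D.T ^ 2 / W) := by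
      calc _ ≤ ∑ x ∈ (D.ts ×ˢ D.ts).filter (fun x => x.1 ≠ x.2), 3 * rt D.M ^ (2 * m) * D.vol *
            (2 * ((1 + V D.M (D.g * D.q' * (D.M * ((x.1 : ℤ) - x.2).natAbs))) ^ m - 1) +
              1 / W) := by
            refine Finset.sum_le_sum fun x hx => ?_
            rw [mem_filter, mem_product] at hx
            refine (pair_le D hD g2 hloc h3 hx.1.1 hx.1.2 hx.2).trans ?_
            have ey : (D.y x.1 - D.y x.2).natAbs = D.M * ((x.1 : ℤ) - x.2).natAbs := by
              unfold Data.y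
              have : D.y₀ + D.M * (x.1 : ℤ) - (D.y₀ + D.M * (x.2 : ℤ)) =
                  (D.M : ℤ) * ((x.1 : ℤ) - x.2) := by ring
              rw [this, Int.natAbs_mul, Int.natAbs_natCast]
            rw [ey]
            unfold Data.q
            set v := V D.M (D.g * D.q' * (D.M * ((x.1 : ℤ) - x.2).natAbs)) with hvdef
            have hv0 : 0 ≤ v := V_nonneg _ _
            have k1 : (1 + (v + 1 / Real.log H)) ^ m ≤ (1 + v) ^ m * (1 + 1 / Real.log H) ^ m := by
              rw [← mul_pow]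
              have : 0 ≤ 1 / Real.log H := by positivity
              refine pow_le_pow_left₀ (by positivity) ?_ m
              nlinarith
            have k2 : 1 ≤ (1 + v) ^ m := one_le_pow₀ (by linarith)
            have k3 : (1 + (v + 1 / Real.log H)) ^ m - 1 ≤ 2 * ((1 + v) ^ m - 1) + 1 / W := by
              have k4 : (1 + v) ^ m * (1 + 1 / Real.log H) ^ m ≤ (1 + v) ^ m * (1 + 1 / W) := by
                gcongr
              have k5 : (1 + v) ^ m * (1 + 1 / W) =
                  ((1 + v) ^ m - 1) * (1 + 1 / W) + 1 + 1 / W := by ring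
              have k6 : ((1 + v) ^ m - 1) * (1 + 1 / W) ≤ ((1 + v) ^ m - 1) * 2 := by
                refine mul_le_mul_of_nonneg_left hη2 (by linarith)
              linarith
            calc 3 * rt D.M ^ (2 * m) * ((1 + (v + 1 / Real.log H)) ^ m - 1) * D.vol =
                3 * rt D.M ^ (2 * m) * D.vol * ((1 + (v + 1 / Real.log H)) ^ m - 1) := by ring
              _ ≤ _ := by gcongr
        _ = 3 * rt D.M ^ (2 * m) * D.vol *
            (2 * ∑ x ∈ (D.ts ×ˢ D.ts).filter (fun x => x.1 ≠ x.2),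
              ((1 + V D.M (D.g * D.q' * (D.M * ((x.1 : ℤ) - x.2).natAbs))) ^ m - 1) +
            ((D.ts ×ˢ D.ts).filter (fun x => x.1 ≠ x.2)).card * (1 / W)) := by
            rw [← Finset.mul_sum, Finset.sum_add_distrib, ← Finset.mul_sum, Finset.sum_const,
              nsmul_eq_mul]
        _ ≤ 3 * rt D.M ^ (2 * m) * D.vol * (2 * (C₁ * D.T ^ 2 / W) + D.T ^ 2 * (1 / W)) := by
            have hsub : (D.ts ×ˢ D.ts).filter (fun x => x.1 ≠ x.2) ⊆
                (range D.T ×ˢ range D.T).filter (fun x => x.1 ≠ x.2) := by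
              refine Finset.filter_subset_filter _ (Finset.product_subset_product ?_ ?_)
              · exact filter_subset _ _
              · exact filter_subset _ _
            have s1 : ∑ x ∈ (D.ts ×ˢ D.ts).filter (fun x => x.1 ≠ x.2),
                ((1 + V D.M (D.g * D.q' * (D.M * ((x.1 : ℤ) - x.2).natAbs))) ^ m - 1) ≤
                C₁ * D.T ^ 2 / W := by
              refine (Finset.sum_le_sum_of_subset_of_nonneg hsub fun x _ _ => ?_).trans
                (hV W D.M D.g D.q' D.T hD.hW hD.hM hD.hMW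
                  (fun p _ hp => hp.trans hD.hg) hD.hq' hD.hqW)
              have := V_nonneg D.M (D.g * D.q' * (D.M * ((x.1 : ℤ) - x.2).natAbs))
              rw [sub_nonneg]
              exact one_le_pow₀ (by linarith)
            have s2 : (((D.ts ×ˢ D.ts).filter (fun x => x.1 ≠ x.2)).card : ℝ) ≤ D.T ^ 2 := by
              have : ((D.ts ×ˢ D.ts).filter (fun x => x.1 ≠ x.2)).card ≤ D.ts.card * D.ts.card :=
                (card_filter_le _ _).trans (card_product _ _).le
              have h6 : (((D.ts ×ˢ D.ts).filter (fun x => x.1 ≠ x.2)).card : ℝ) ≤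
                  (D.ts.card : ℝ) * D.ts.card := by exact_mod_cast this
              refine h6.trans ?_
              rw [pow_two]
              gcongr
            gcongr
        _ = _ := by ring
    -- the diagonal
    have hT := hD.hT
    have hT0 : (0 : ℝ) ≤ D.T := Nat.cast_nonneg _
    have hTbig : W * ((2 * Real.log H) ^ (2 * m) + 1) ≤ D.T := by
      refine le_trans ?_ hT
      have k1 : 1 ≤ Real.log H ^ (2 * m) := one_le_pow₀ g2
      have k2 : (2 * Real.log H) ^ (2 * m) + 1 ≤ (2 ^ (2 * m) + 1) * Real.log H ^ (2 * m) := by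
        rw [mul_pow]
        linarith
      calc W * ((2 * Real.log H) ^ (2 * m) + 1) ≤
          W * ((2 ^ (2 * m) + 1) * Real.log H ^ (2 * m)) := by gcongr
        _ = ((2 ^ (2 * m) + 1) * W) * Real.log H ^ (2 * m) := by ring
        _ ≤ Real.log H * Real.log H ^ (2 * m) := by gcongr
        _ = Real.log H ^ (2 * m + 1) := by ring
        _ ≤ Real.log H ^ (2 * m + 3) := pow_le_pow_right₀ g2 (by omega)
    have dia : ∑ x ∈ (D.ts ×ˢ D.ts).filter (fun x => ¬ x.1 ≠ x.2), ∑ b ∈ D.box,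
        (D.f x.1 b - rt D.M ^ m * D.one x.1 b) * (D.f x.2 b - rt D.M ^ m * D.one x.2 b) ≤
        rt D.M ^ (2 * m) * D.T ^ 2 / W * D.vol := by
      have hc : (((D.ts ×ˢ D.ts).filter (fun x => ¬ x.1 ≠ x.2)).card : ℝ) ≤ D.T := by
        refine le_trans ?_ hTT
        have : ((D.ts ×ˢ D.ts).filter (fun x => ¬ x.1 ≠ x.2)).card ≤ D.ts.card := by
          refine Finset.card_le_card_of_injOn Prod.fst ?_ ?_
          · intro x hx
            exact (mem_product.1 (mem_filter.1 hx).1).1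
          · intro x hx y hy hxy
            have h6 := not_not.1 (mem_filter.1 hx).2
            have h7 := not_not.1 (mem_filter.1 hy).2
            exact Prod.ext hxy (by rw [← h6, ← h7, hxy])
        exact_mod_cast this
      calc _ ≤ ∑ _x ∈ (D.ts ×ˢ D.ts).filter (fun x => ¬ x.1 ≠ x.2),
            ((2 * Real.log H) ^ (2 * m) + rt D.M ^ (2 * m)) * D.vol := by
            refine Finset.sum_le_sum fun x hx => ?_
            rw [mem_filter, mem_product, not_not] at hx
            rw [← hx.2]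
            exact diag_le D hD g2 g4 hx.1.1
        _ = (((D.ts ×ˢ D.ts).filter (fun x => ¬ x.1 ≠ x.2)).card : ℝ) *
            (((2 * Real.log H) ^ (2 * m) + rt D.M ^ (2 * m)) * D.vol) := by
            rw [Finset.sum_const, nsmul_eq_mul]
        _ ≤ D.T * ((rt D.M ^ (2 * m) * ((2 * Real.log H) ^ (2 * m) + 1)) * D.vol) := by
            have k1 : (2 * Real.log H) ^ (2 * m) + rt D.M ^ (2 * m) ≤
                rt D.M ^ (2 * m) * ((2 * Real.log H) ^ (2 * m) + 1) := by
              have k2 : 1 ≤ rt D.M ^ (2 * m) := one_le_pow₀ hw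
              have k3 : 0 ≤ (2 * Real.log H) ^ (2 * m) := by positivity
              nlinarith
            gcongr
        _ ≤ rt D.M ^ (2 * m) * D.T ^ 2 / W * D.vol := by
            have k4 : (2 * Real.log H) ^ (2 * m) + 1 ≤ D.T / W := by
              rw [le_div_iff₀ (by linarith)]
              linarith
            calc (D.T : ℝ) * ((rt D.M ^ (2 * m) * ((2 * Real.log H) ^ (2 * m) + 1)) * D.vol) ≤
                D.T * ((rt D.M ^ (2 * m) * (D.T / W)) * D.vol) := by gcongr
              _ = _ := by ring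
    rw [e1, ← Finset.sum_filter_add_sum_filter_not _ (fun x : ℕ × ℕ => x.1 ≠ x.2)]
    calc _ ≤ 3 * rt D.M ^ (2 * m) * D.vol * ((2 * C₁ + 1) * D.T ^ 2 / W) +
          rt D.M ^ (2 * m) * D.T ^ 2 / W * D.vol := add_le_add off dia
      _ = _ := by ring
  obtain ⟨H₀, hH₀⟩ := Filter.eventually_atTop.1 hev
  exact ⟨H₀, fun H hH D hD => hH₀ H hH D hD⟩

end Pool.Agent.N362.DC
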